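import Pool.Agent.helper80.SV.Spec

/-! Module sv:GKR (helper13): small kernels are generic. -/

set_option autoImplicit false

namespace Pool.Agent.SV

open MvPolynomial Module

theorem GKR (hT1 : T1_stmt) : GKR_stmt := by
  intro E J W _ _ _ _ _ _ B hB k hex
  refine ⟨hex, fun Z₀ Z₁ hZ => ?_⟩
  refine hT1 (fun t => B (Z₀ + t • (Z₁ - Z₀))) (hB Z₀ Z₁) k 0 ?_
  have h1 : Z₀ + (0 : ℂ) • (Z₁ - Z₀) = Z₀ := by rw [zero_smul, add_zero]
  show finrank ℂ (LinearMap.ker (B (Z₀ + (0 : ℂ) • (Z₁ - Z₀)))) ≤ k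
  rw [h1]
  exact hZ

end Pool.Agent.SV
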